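import Mathlib
import Pool.Agent.TH854.KS.K7

set_option autoImplicit false

open Finset

/-!
# MP_927be3_nt: every local obstruction gives a lower bound for `d_0(k)`

If `N_{k,d}(r) ≍ r^{d-k}` holds in dimension `d` then, for every prime `p`, the form
`x_1 ^ k + ... + x_d ^ k` has a nontrivial zero over the `p`-adic numbers, that is, `-1` is a sum of
`d - 1` `k`-th powers in `ℚ_p` (the level of order `k` of `ℚ_p` is at most `d - 1`).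

Proof. Consider the radii `p ^ j`. If the form has no nontrivial zero, it has no primitive zero modulo
`p ^ γ` for some `γ` (compactness of `ℤ_p ^ d`), so that all solutions of
`|m_1| ^ k + ... + |m_d| ^ k = p ^ (k j)`, `j ≥ γ`, are divisible by `p`, and `N_{k,d}(p ^ j)` does not
grow with `j`, although all the radii `p ^ j` are in `R_{k,d}`.
-/

namespace Pool.Agent.Results.MP_927be3_nt.LocalObstructions

/-- The arithmetic `k`-sphere `S_{k,d}(r)` of radius `r` in dimension `d`. -/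
def sphere (k d : ℕ) (r : ℝ) : Set (Fin d → ℤ) := {m | ∑ i, |(m i : ℝ)| ^ k = r ^ k}

/-- `N_{k,d}(r) ≍ r^{d-k}`: there are `0 < c ≤ C` and `r₀` with `c r^{d-k} ≤ N_{k,d}(r) ≤ C r^{d-k}`
for all radii `r ≥ r₀`, `r > 0`, with non-empty `S_{k,d}(r)`. -/
def OrderHolds (k d : ℕ) : Prop :=
  ∃ c C r₀ : ℝ, 0 < c ∧ c ≤ C ∧ ∀ r : ℝ, 0 < r → r₀ ≤ r → (sphere k d r).Nonempty →
    c * r ^ ((d : ℝ) - k) ≤ ((sphere k d r).ncard : ℝ) ∧
      ((sphere k d r).ncard : ℝ) ≤ C * r ^ ((d : ℝ) - k)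

/-- primitive zeros modulo all powers of `p` give a primitive `p`-adic zero -/
theorem padic_zero {k d : ℕ} (p : ℕ) [hp : Fact p.Prime]
    (h : ∀ γ : ℕ, ∃ y : Fin d → ℕ, p ^ γ ∣ ∑ i, y i ^ k ∧ ∃ i, ¬ p ∣ y i) :
    ∃ x : Fin d → ℤ_[p], (∃ i, ‖x i‖ = 1) ∧ ∑ i, x i ^ k = 0 := by
  classical
  set K : Set (Fin d → ℤ_[p]) := {x | ∃ i, ‖x i‖ = 1} with hK
  have hKc : IsClosed K := by
    have : K = ⋃ i : Fin d, {x : Fin d → ℤ_[p] | ‖x i‖ = 1} := by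
      ext x; simp [hK]
    rw [this]
    refine isClosed_iUnion_of_finite (fun i => ?_)
    exact isClosed_eq (continuous_norm.comp (continuous_apply i)) continuous_const
  have hcomp : IsCompact K := hKc.isCompact
  have hemb : ∀ y : Fin d → ℕ, (∃ i, ¬ p ∣ y i) → (fun i => ((y i : ℕ) : ℤ_[p])) ∈ K := by
    rintro y ⟨i, hi⟩
    refine ⟨i, ?_⟩
    show ‖((y i : ℕ) : ℤ_[p])‖ = 1
    have h1 : ¬ ‖(((y i : ℕ) : ℤ) : ℤ_[p])‖ < 1 := by
      rw [PadicInt.norm_int_lt_one_iff_dvd]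
      exact_mod_cast hi
    have h2 := PadicInt.norm_le_one (((y i : ℕ) : ℤ) : ℤ_[p])
    have h3 : (((y i : ℕ) : ℤ) : ℤ_[p]) = ((y i : ℕ) : ℤ_[p]) := by norm_cast
    rw [h3] at h1 h2
    exact le_antisymm h2 (not_lt.1 h1)
  obtain ⟨y0, _, hy0⟩ := h 0
  have hne : K.Nonempty := ⟨_, hemb y0 hy0⟩
  have hcont : Continuous (fun x : Fin d → ℤ_[p] => ‖∑ i, x i ^ k‖) := by fun_prop
  obtain ⟨x, hxK, hmin⟩ := hcomp.exists_isMinOn hne hcont.continuousOn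
  refine ⟨x, hxK, ?_⟩
  by_contra hx0
  have hpos : 0 < ‖∑ i, x i ^ k‖ := norm_pos_iff.2 hx0
  have hp1 : (1 : ℝ) < p := by exact_mod_cast hp.out.one_lt
  obtain ⟨γ, hγ⟩ := exists_pow_lt_of_lt_one hpos (inv_lt_one_of_one_lt₀ hp1)
  obtain ⟨y, hy1, hy2⟩ := h γ
  have h4 := hmin (hemb y hy2)
  simp only [Set.mem_ofPred_eq] at h4
  have h5 : ‖∑ i, ((y i : ℕ) : ℤ_[p]) ^ k‖ ≤ ((p : ℝ)⁻¹) ^ γ := by
    have h6 : ∑ i, ((y i : ℕ) : ℤ_[p]) ^ k = (((∑ i, y i ^ k : ℕ) : ℤ) : ℤ_[p]) := by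
      push_cast; rfl
    rw [h6]
    have h7 : ((p : ℤ) ^ γ) ∣ ((∑ i, y i ^ k : ℕ) : ℤ) := by exact_mod_cast hy1
    have h8 := (PadicInt.norm_int_le_pow_iff_dvd (p := p) (k := ((∑ i, y i ^ k : ℕ) : ℤ)) (n := γ)).2 h7
    refine h8.trans (le_of_eq ?_)
    rw [zpow_neg, zpow_natCast, inv_pow]
  linarith

/-- a nontrivial zero in another form: `-1` is a sum of `d - 1` `k`-th powers -/
theorem neg_one_sum {k d : ℕ} (p : ℕ) [Fact p.Prime] (x : Fin d → ℤ_[p])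
    (i₀ : Fin d) (hi : ‖x i₀‖ = 1) (hx : ∑ i, x i ^ k = 0) :
    ∃ y : {i : Fin d // i ≠ i₀} → ℤ_[p], (-1 : ℤ_[p]) = ∑ i, y i ^ k := by
  classical
  obtain ⟨u, hu⟩ := PadicInt.isUnit_iff.2 hi
  refine ⟨fun i => x i * (↑u⁻¹ : ℤ_[p]), ?_⟩
  have h1 : ∑ i : {i : Fin d // i ≠ i₀}, x i ^ k = - x i₀ ^ k := by
    have h2 : ∑ i, x i ^ k = x i₀ ^ k + ∑ i : {i : Fin d // i ≠ i₀}, x i ^ k := by
      rw [← Finset.add_sum_erase _ _ (mem_univ i₀)]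
      congr 1
      rw [← Finset.sum_subtype (univ.erase i₀) (by simp) (fun i => x i ^ k)]
    rw [h2] at hx
    exact eq_neg_of_add_eq_zero_right hx
  simp_rw [mul_pow]
  rw [← Finset.sum_mul, h1, neg_mul, ← mul_pow, ← hu, Units.mul_inv, one_pow]

/-- **Local lower bounds for `d_0(k)`.**  Let `k ≥ 3`, and suppose that `N_{k,d}(r) ≍ r^{d-k}` holds in
dimension `d`.  Then for every prime `p` the form `x_1 ^ k + ... + x_d ^ k` has a primitive `p`-adic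
zero and `-1` is a sum of at most `d - 1` `k`-th powers of `p`-adic integers.  In particular
`2 ^ (v + 2) ≤ d` if `2 ^ v ∣ k`, `v ≥ 1` (so `d_0(k) ≥ 4 k` if `k ≥ 4` is a power of two), and
`p ^ (v + 1) ≤ d` if `(p - 1) p ^ v ∣ k`. -/
theorem result (k : ℕ) (hk : 3 ≤ k) (d : ℕ) (hd : 1 ≤ d) (h : OrderHolds k d) :
    (∀ (p : ℕ) [Fact p.Prime], ∃ x : Fin d → ℤ_[p], (∃ i, ‖x i‖ = 1) ∧ ∑ i, x i ^ k = 0) ∧
    (∀ (p : ℕ) [Fact p.Prime], ∃ y : Fin (d - 1) → ℤ_[p], (-1 : ℤ_[p]) = ∑ i, y i ^ k) ∧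
    (∀ v : ℕ, 1 ≤ v → 2 ^ v ∣ k → 2 ^ (v + 2) ≤ d) ∧
    (∀ p v : ℕ, p.Prime → (p - 1) * p ^ v ∣ k → p ^ (v + 1) ≤ d) := by
  classical
  obtain ⟨c, C, r₀, hc, hcC, h⟩ := h
  have hH : Pool.Agent.TH854.KS.Holds k d := ⟨c, C, r₀, hc, h⟩
  have hdk : k + 1 ≤ d := by
    by_contra hcon
    exact Pool.Agent.TH854.KS.fails_low hk hd (by omega) hH
  have hz : ∀ (p : ℕ) [Fact p.Prime], ∃ x : Fin d → ℤ_[p],
      (∃ i, ‖x i‖ = 1) ∧ ∑ i, x i ^ k = 0 := fun p hp =>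
    padic_zero p (fun γ => Pool.Agent.TH854.KS.primitive_of_holds hk hdk hH hp.out γ)
  refine ⟨hz, ?_, ?_, ?_⟩
  · intro p hp
    obtain ⟨x, ⟨i₀, hi⟩, hx⟩ := hz p
    obtain ⟨y, hy⟩ := neg_one_sum p x i₀ hi hx
    have hcard : Fintype.card {i : Fin d // i ≠ i₀} = d - 1 := by
      rw [Fintype.card_subtype_compl, Fintype.card_fin, Fintype.card_subtype_eq]
    let e : {i : Fin d // i ≠ i₀} ≃ Fin (d - 1) := Fintype.equivFinOfCardEq hcard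
    refine ⟨fun i => y (e.symm i), ?_⟩
    rw [hy]
    exact (Equiv.sum_comp e.symm (fun i => y i ^ k)).symm
  · intro v hv hdvd
    exact Pool.Agent.TH854.KS.bound_two hk hdk hH hv hdvd
  · intro p v hp hdvd
    exact Pool.Agent.TH854.KS.bound_odd hk hdk hH hp hdvd

end Pool.Agent.Results.MP_927be3_nt.LocalObstructions
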